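import Pool.Agent.helper32.QS.Spec

set_option autoImplicit false

namespace QS

theorem HOM : HOM_stmt := by
  intro X _ _ k _
  classical
  have hfin : Fintype X := Fintype.ofFinite X
  have hli := linearIndependent_monoidHom X k
  have hinj : Function.Injective (fun f : X →* kˣ => (Units.coeHom k).comp f) := by
    intro f g hfg
    ext x
    exact DFunLike.congr_fun hfg x
  have hli2 : LinearIndependent k (fun f : X →* kˣ => (((Units.coeHom k).comp f : X →* k) : X → k)) :=
    hli.comp _ hinj
  have h1 : Finite (X →* kˣ) := hli2.finite
  refine ⟨h1, ?_⟩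
  have h2 : Fintype (X →* kˣ) := Fintype.ofFinite _
  have h3 := hli2.fintype_card_le_finrank
  rw [Module.finrank_fintype_fun_eq_card] at h3
  rwa [Nat.card_eq_fintype_card, Nat.card_eq_fintype_card]

end QS
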