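import Pool.Agent.helper32.QS.Spec

set_option autoImplicit false

namespace QS

open scoped BigOperators commutatorElement

theorem K2_uniq {k U H : Type} [Field k] [AddCommGroup U] [Module k U] [Group H] [DistribMulAction H U]
    (hnt : Nontrivial U) (h : H) (σ τ : k → k) (hσ : ∀ (c : k) (u : U), h • (c • u) = σ c • (h • u))
    (hτ : ∀ (c : k) (u : U), h • (c • u) = τ c • (h • u)) (c : k) : σ c = τ c := by
  obtain ⟨u, hu⟩ := exists_ne (0 : U)
  have h1 : h • u ≠ 0 := by
    intro h0
    apply hu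
    have h2 : h⁻¹ • (h • u) = h⁻¹ • (0 : U) := by rw [h0]
    rwa [inv_smul_smul, smul_zero] at h2
  have h3 : (σ c - τ c) • (h • u) = 0 := by
    rw [sub_smul, ← hσ, ← hτ, sub_self]
  rcases smul_eq_zero.mp h3 with h4 | h4
  · exact sub_eq_zero.mp h4
  · exact absurd h4 h1

theorem K2 : K2_stmt := by
  intro k U H _ _ _ _ _ _ _ _ hS
  classical
  have hnt := hS.nt
  choose σ hσ using hS.semi
  obtain ⟨r, hr⟩ := CharP.exists k
  have hrp : r.Prime := CharP.char_is_prime k r
  have : Fact r.Prime := ⟨hrp⟩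
  let : Algebra (ZMod r) k := ZMod.algebra k r
  have : Module.Finite (ZMod r) k := Module.Finite.of_finite
  have hcomm : ∀ (τ : k ≃+* k) (a : ZMod r), τ (algebraMap (ZMod r) k a) = algebraMap (ZMod r) k a := by
    intro τ a
    have h1 : (τ : k →+* k).comp (algebraMap (ZMod r) k) = algebraMap (ZMod r) k := Subsingleton.elim _ _
    exact DFunLike.congr_fun h1 a
  have hmul : ∀ (a b : H) (c : k), σ (a * b) c = σ a (σ b c) := by
    intro a b c
    apply K2_uniq hnt (a * b) (fun c => σ (a * b) c) (fun c => σ a (σ b c)) (hσ (a * b))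
    intro c u
    rw [mul_smul, hσ b, hσ a, mul_smul]
  let φ : H →* (k ≃ₐ[ZMod r] k) := MonoidHom.mk' (fun h => AlgEquiv.ofRingEquiv (hcomm (σ h))) (by
    intro a b
    ext c
    exact hmul a b c)
  have hφ : ∀ (h : H) (c : k), φ h c = σ h c := fun h c => rfl
  have hker : φ.ker = SC k U H := by
    ext h
    rw [MonoidHom.mem_ker]
    constructor
    · intro h1 c u
      rw [hσ h c u, ← hφ, h1]
      rfl
    · intro h1
      ext c
      rw [hφ]
      exact K2_uniq hnt h (σ h) (fun c => c) (hσ h) h1 c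
  refine ⟨⟨?_⟩, ?_, ?_, ?_, r, Module.finrank (ZMod r) k, hrp, ?_, ?_, ?_⟩
  · rintro a ⟨c, hc⟩ h
    refine ⟨Units.map (σ h : k →* k) c, fun u => ?_⟩
    rw [mul_smul, mul_smul, hc, hσ, smul_inv_smul]
    rfl
  · rw [← hker]
    infer_instance
  · rintro a ⟨c, hc⟩
    intro d u
    rw [hc, hc, smul_smul, smul_smul, mul_comm]
  · intro x y
    rw [← hker, MonoidHom.mem_ker, map_commutatorElement]
    rw [commutatorElement_eq_one_iff_mul_comm]
    have : IsCyclic (k ≃ₐ[ZMod r] k) := inferInstance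
    let : CommGroup (k ≃ₐ[ZMod r] k) := IsCyclic.commGroup
    exact mul_comm (φ x) (φ y)
  · exact Module.finrank_pos
  · have h1 := Module.natCard_eq_pow_finrank (K := ZMod r) (V := k)
    rwa [Nat.card_zmod] at h1
  · have h1 := Subgroup.card_mul_index (φ.ker)
    rw [Subgroup.index_ker] at h1
    have h2 : Nat.card φ.range ≤ Nat.card (k ≃ₐ[ZMod r] k) := Subgroup.card_le_card_group φ.range
    have h3 : Nat.card (k ≃ₐ[ZMod r] k) = Module.finrank (ZMod r) k := by
      have := Nat.card_eq_of_bijective _ (FiniteField.bijective_frobeniusAlgEquivOfAlgebraic_pow (ZMod r) k)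
      rw [← this, Nat.card_eq_fintype_card, Fintype.card_fin]
    rw [← hker, ← h1, mul_comm]
    exact Nat.mul_le_mul_right _ (h2.trans h3.le)

end QS
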