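import Pool.Agent.helper32.QS.Spec

set_option autoImplicit false

namespace QS

open scoped BigOperators commutatorElement

theorem K3_one {k U H : Type} [Field k] [AddCommGroup U] [Module k U] [Group H] [DistribMulAction H U]
    (hF : Fai H U) (z : H) (c : kˣ) (hc : ∀ u : U, z • u = (c : k) • u) (u : U) (hu : u ≠ 0)
    (hz : z • u = u) : z = 1 := by
  apply hF
  intro v
  have h1 : ((c : k) - 1) • u = 0 := by
    rw [sub_smul, one_smul, ← hc, hz, sub_self]
  rcases smul_eq_zero.mp h1 with h2 | h2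
  · rw [hc, sub_eq_zero.mp h2, one_smul]
  · exact absurd h2 hu

theorem K3_eq {k U : Type} [Field k] [AddCommGroup U] [Module k U] (hnt : Nontrivial U) (c d : k)
    (h : ∀ u : U, c • u = d • u) : c = d := by
  obtain ⟨u, hu⟩ := exists_ne (0 : U)
  have h1 : (c - d) • u = 0 := by rw [sub_smul, h, sub_self]
  rcases smul_eq_zero.mp h1 with h2 | h2
  · exact sub_eq_zero.mp h2
  · exact absurd h2 hu

theorem K3 : K3_stmt := by
  intro k U H _ _ _ _ _ _ _ _ hS
  classical
  have hnt := hS.nt
  have hF := hS.faith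
  choose lam hlam using (fun z : SA k U H => z.2)
  have hmul : ∀ a b : SA k U H, lam (a * b) = lam a * lam b := by
    intro a b
    apply Units.ext
    apply K3_eq hnt
    intro u
    rw [← hlam, Units.val_mul, mul_smul, ← hlam b, ← hlam a, ← mul_smul]
    rfl
  let ψ : SA k U H →* kˣ := MonoidHom.mk' lam hmul
  have hψ : ∀ a : SA k U H, ψ a = lam a := fun a => rfl
  have hinj : Function.Injective ψ := by
    intro a b hab
    rw [hψ, hψ] at hab
    apply Subtype.ext
    have h1 : (a : H)⁻¹ * (b : H) = 1 := by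
      apply hF
      intro u
      rw [mul_smul, inv_smul_eq_iff, hlam b, hlam a, hab]
    exact inv_mul_eq_one.mp h1
  refine ⟨?_, ?_, ?_, ?_⟩
  · rintro z ⟨c, hc⟩ u hu hz
    exact K3_one hF z c hc u hu hz
  · have h1 := Subgroup.card_dvd_of_injective ψ hinj
    rwa [Nat.card_units] at h1
  · intro m hm
    have hft : Fintype kˣ := Fintype.ofFinite _
    have h1 := IsCyclic.card_pow_eq_one_le (α := kˣ) (n := m) (by omega)
    have h2 : Nat.card {c : kˣ // c ^ m = 1} ≤ m := by
      rw [Nat.card_eq_fintype_card, Fintype.card_subtype]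
      exact h1
    refine le_trans ?_ h2
    refine Nat.card_le_card_of_injective (fun a : {a : H // a ∈ SA k U H ∧ a ^ m = 1} =>
      (⟨ψ ⟨a.1, a.2.1⟩, ?_⟩ : {c : kˣ // c ^ m = 1})) ?_
    · rw [← map_pow]
      have h3 : (⟨a.1, a.2.1⟩ : SA k U H) ^ m = 1 := by
        apply Subtype.ext
        exact a.2.2
      rw [h3, map_one]
    · intro a b hab
      have h3 : ψ ⟨a.1, a.2.1⟩ = ψ ⟨b.1, b.2.1⟩ := congrArg Subtype.val hab
      have h4 := hinj h3
      apply Subtype.ext
      exact congrArg (fun x : SA k U H => (x : H)) h4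
  · rintro a ⟨l, hl⟩ c hc
    have h1 : (a * c)⁻¹ * (c * a) = 1 := by
      apply hF
      intro u
      rw [mul_smul, inv_smul_eq_iff, mul_smul, mul_smul, hl, hl, hc]
    exact inv_mul_eq_one.mp h1

end QS
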