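import Pool.Agent.helper32.QS.Spec

set_option autoImplicit false

namespace QS

open scoped BigOperators commutatorElement

theorem PK_pow {H : Type} [Group H] (s t l : H) (h1 : s * t = l * (t * s)) (h2 : l * s = s * l) (n : ℕ) :
    s ^ n * t = l ^ n * (t * s ^ n) := by
  induction n with
  | zero => simp
  | succ n ih =>
    have h3 : s * l ^ n = l ^ n * s := by
      have h4 : Commute s l := h2.symm
      exact (h4.pow_right n).eq
    calc s ^ (n + 1) * t = s * (s ^ n * t) := by rw [pow_succ', mul_assoc]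
      _ = s * (l ^ n * (t * s ^ n)) := by rw [ih]
      _ = l ^ n * (s * t * s ^ n) := by rw [← mul_assoc, h3]; simp only [mul_assoc]
      _ = l ^ n * (l * (t * s) * s ^ n) := by rw [h1]
      _ = l ^ (n + 1) * (t * s ^ (n + 1)) := by
        rw [pow_succ l n, pow_succ' s n]
        simp only [mul_assoc]

theorem PK (hK3 : K3_stmt) : PK_stmt := by
  intro k U H _ _ _ _ _ _ _ _ hS S hSS l hl hdiv
  obtain ⟨-, k2, -, k4⟩ := hK3 k U H hS
  have hcen : ∀ a ∈ SA k U H, ∀ c ∈ S, a * c = c * a := fun a ha c hc => k4 a ha c (hSS.hC hc)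
  have hnorm : ((SA k U H).subgroupOf S).Normal := by
    refine ⟨?_⟩
    intro a ha g
    rw [Subgroup.mem_subgroupOf] at ha ⊢
    have h1 := hcen _ ha g g.2
    have h2 : ((g * a * g⁻¹ : S) : H) = (a : H) := by
      rw [Subgroup.coe_mul, Subgroup.coe_mul, Subgroup.coe_inv, ← h1, mul_inv_cancel_right]
    rw [h2]
    exact ha
  have : Fact l.Prime := ⟨hl⟩
  have hdiv2 : l ∣ Nat.card (S ⧸ (SA k U H).subgroupOf S) := hdiv
  obtain ⟨x, hx⟩ := exists_prime_orderOf_dvd_card' (G := S ⧸ (SA k U H).subgroupOf S) l hdiv2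
  obtain ⟨s, rfl⟩ := QuotientGroup.mk_surjective x
  have hs1 : (s : H) ∉ SA k U H := by
    intro h
    have h1 : ((s : S) : S ⧸ (SA k U H).subgroupOf S) = 1 := by
      rw [QuotientGroup.eq_one_iff, Subgroup.mem_subgroupOf]
      exact h
    rw [h1, orderOf_one] at hx
    exact hl.one_lt.ne hx
  have hs2 : (s : H) ^ l ∈ SA k U H := by
    have h1 : ((s ^ l : S) : S ⧸ (SA k U H).subgroupOf S) = 1 := by
      rw [QuotientGroup.mk_pow, ← hx, pow_orderOf_eq_one]
    rw [QuotientGroup.eq_one_iff, Subgroup.mem_subgroupOf] at h1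
    exact h1
  have hex : ∃ t ∈ S, (s : H) * t ≠ t * s := by
    by_contra hc
    push Not at hc
    exact hs1 (hSS.cent s s.2 hc)
  obtain ⟨t, ht, hst⟩ := hex
  have hlam : ⁅(s : H), t⁆ ∈ SA k U H := hSS.comm s s.2 t ht
  have h1 : (s : H) * t = ⁅(s : H), t⁆ * (t * s) := by
    rw [commutatorElement_def]
    group
  have h2 := PK_pow (s : H) t ⁅(s : H), t⁆ h1 (hcen _ hlam s s.2) l
  rw [← hcen _ hs2 t ht] at h2
  have h3 : ⁅(s : H), t⁆ ^ l = 1 := by
    have h4 : (s : H) ^ l * t = ⁅(s : H), t⁆ ^ l * ((s : H) ^ l * t) := h2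
    exact (mul_eq_right.mp h4.symm)
  have h5 : ⁅(s : H), t⁆ ≠ 1 := by
    intro h
    rw [commutatorElement_eq_one_iff_mul_comm] at h
    exact hst h
  have h6 : orderOf ⁅(s : H), t⁆ = l := orderOf_eq_prime h3 h5
  have h7 : orderOf (⟨⁅(s : H), t⁆, hlam⟩ : SA k U H) ∣ Nat.card (SA k U H) := orderOf_dvd_natCard _
  rw [Subgroup.orderOf_mk, h6] at h7
  exact h7.trans k2

end QS
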